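import Pool.Agent.Helper66.PD.Defs

/-!
# Posets of large dimension with cover graph of small path-width: nested Kelly posets, linear height

A path-width `2 * k + 1`, height `k * n + 2`, dimension at least `n ^ k`.
-/

set_option autoImplicit false

namespace Pool.Agent.Helper23.NK

open Pool.Agent.Helper66.PD (cov HeightLE PathWidthLE DimLE)

/-- elements: pairs `X a`, `Y a`; `R j B`, `L j B`: rails of level `j` (to the right, to the left),
block `B` (the block of level `j` of the address `a` is `a / n ^ j`) -/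
inductive W : Type
  | X (a : ℕ) : W
  | Y (a : ℕ) : W
  | R (j B : ℕ) : W
  | L (j B : ℕ) : W

namespace W

/-- admissible elements -/
def ok (k n : ℕ) : W → Prop
  | X a => a < n ^ k
  | Y a => a < n ^ k
  | R j B => j < k ∧ B < n ^ (k - j)
  | L j B => j < k ∧ B < n ^ (k - j)

/-- the edges -/
inductive E (n : ℕ) : W → W → Prop
  | xr (a : ℕ) : E n (X a) (R 0 a)
  | xl (a : ℕ) : E n (X a) (L 0 a)
  | rr (j B : ℕ) (hB : (B + 1) / n = B / n) : E n (R j B) (R j (B + 1))
  | ll (j B : ℕ) (hB : (B + 1) / n = B / n) : E n (L j (B + 1)) (L j B)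
  | ru (j B : ℕ) (hB : B % n + 1 = n) : E n (R j B) (R (j + 1) (B / n))
  | lu (j B : ℕ) (hB : B % n = 0) : E n (L j B) (L (j + 1) (B / n))
  | ry (j B b : ℕ) (hB : (B + 1) / n = B / n) (hb : b / n ^ j = B + 1) : E n (R j B) (Y b)
  | ly (j B b : ℕ) (hB : (B + 1) / n = B / n) (hb : b / n ^ j = B) : E n (L j (B + 1)) (Y b)

/-- edges between admissible elements -/
def EE (k n : ℕ) (u v : W) : Prop := E n u v ∧ ok k n u ∧ ok k n v

/-- the rank -/
def rk (k n : ℕ) : W → ℕ
  | X _ => 0
  | Y _ => k * n + 1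
  | R j B => 1 + j * n + B % n
  | L j B => 1 + j * n + (n - 1 - B % n)

theorem mod_succ {n B : ℕ} (h : (B + 1) / n = B / n) : (B + 1) % n = B % n + 1 := by
  have h1 := Nat.div_add_mod (B + 1) n
  have h2 := Nat.div_add_mod B n
  rw [h] at h1
  omega

theorem n_pos {k n j B : ℕ} (h : j < k ∧ B < n ^ (k - j)) : 0 < n := by
  rcases Nat.eq_zero_or_pos n with h0 | h0
  · exfalso
    subst h0
    obtain ⟨h4, h5⟩ := h
    rw [Nat.zero_pow (by omega)] at h5
    omega
  · exact h0

theorem rk_EE {k n : ℕ} (u v : W) (h : EE k n u v) : rk k n u < rk k n v := by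
  obtain ⟨hE, hu, hv⟩ := h
  cases hE with
  | xr a => simp only [rk]; omega
  | xl a => simp only [rk]; omega
  | rr j B hB =>
    have h1 := mod_succ hB
    simp only [rk]
    omega
  | ll j B hB =>
    have hn := n_pos hu
    have h1 := mod_succ hB
    have h2 := Nat.mod_lt (B + 1) hn
    simp only [rk]
    omega
  | ru j B hB =>
    have h3 : (j + 1) * n = j * n + n := by ring
    simp only [rk]
    rw [h3]
    omega
  | lu j B hB =>
    have hn := n_pos hu
    have h3 : (j + 1) * n = j * n + n := by ring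
    simp only [rk]
    rw [h3]
    omega
  | ry j B b hB hb =>
    have hn := n_pos hu
    have h2 := Nat.mod_lt B hn
    have h3 : (j + 1) * n ≤ k * n := Nat.mul_le_mul_right n hu.1
    have h4 : (j + 1) * n = j * n + n := by ring
    simp only [rk]
    omega
  | ly j B b hB hb =>
    have hn := n_pos hu
    have h3 : (j + 1) * n ≤ k * n := Nat.mul_le_mul_right n hu.1
    have h4 : (j + 1) * n = j * n + n := by ring
    simp only [rk]
    omega

theorem rk_le {k n : ℕ} (u v : W) (h : Relation.ReflTransGen (EE k n) u v) :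
    rk k n u ≤ rk k n v := by
  induction h with
  | refl => exact le_rfl
  | tail _ h ih => exact ih.trans (rk_EE _ _ h).le

theorem rk_lt {k n : ℕ} (u v : W) (h : Relation.ReflTransGen (EE k n) u v) (hne : u ≠ v) :
    rk k n u < rk k n v := by
  rcases Relation.ReflTransGen.cases_tail h with h1 | ⟨w, h1, h2⟩
  · exact absurd h1.symm hne
  · exact lt_of_le_of_lt (rk_le _ _ h1) (rk_EE _ _ h2)

theorem rk_top {k n : ℕ} (u : W) (h : ok k n u) : rk k n u < k * n + 2 := by
  cases u with
  | X a => simp only [rk]; omega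
  | Y a => simp only [rk]; omega
  | R j B =>
    have hn := n_pos h
    have h2 := Nat.mod_lt B hn
    have h3 : (j + 1) * n ≤ k * n := Nat.mul_le_mul_right n h.1
    have h4 : (j + 1) * n = j * n + n := by ring
    simp only [rk]
    omega
  | L j B =>
    have hn := n_pos h
    have h3 : (j + 1) * n ≤ k * n := Nat.mul_le_mul_right n h.1
    have h4 : (j + 1) * n = j * n + n := by ring
    simp only [rk]
    omega

end W

/-- the nested Kelly poset of linear height -/
def Kel (k n : ℕ) : Type := {u : W // W.ok k n u}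

namespace Kel

open W

variable {k n : ℕ}

instance instPO : PartialOrder (Kel k n) where
  le u v := Relation.ReflTransGen (EE k n) u.1 v.1
  le_refl u := Relation.ReflTransGen.refl
  le_trans u v w h1 h2 := Relation.ReflTransGen.trans h1 h2
  le_antisymm u v h1 h2 := by
    by_contra hne
    have hne' : u.1 ≠ v.1 := fun h => hne (Subtype.ext h)
    have a1 := W.rk_lt u.1 v.1 h1 hne'
    have a2 := W.rk_lt v.1 u.1 h2 (Ne.symm hne')
    omega

theorem le_def (u v : Kel k n) : u ≤ v ↔ Relation.ReflTransGen (EE k n) u.1 v.1 := Iff.rfl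

/-- covers are edges -/
theorem cov_EE (u v : Kel k n) (h : u ⋖ v) : EE k n u.1 v.1 := by
  rcases Relation.ReflTransGen.cases_tail ((le_def _ _).1 h.le) with h1 | ⟨w, h1, h2⟩
  · exact absurd (Subtype.ext h1.symm) h.ne
  · by_cases h3 : u.1 = w
    · rw [h3]; exact h2
    · exfalso
      have h4 : w ≠ v.1 := by
        intro h5
        have := rk_EE _ _ h2
        rw [h5] at this
        exact lt_irrefl _ this
      have h5 : ∃ w' : Kel k n, w'.1 = w := ⟨⟨w, h2.2.1⟩, rfl⟩
      obtain ⟨w', rfl⟩ := h5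
      have h6 : u ≤ w' := h1
      have h7 : w' ≤ v := Relation.ReflTransGen.single h2
      exact h.2 (lt_of_le_of_ne h6 fun h => h3 (congrArg Subtype.val h))
        (lt_of_le_of_ne h7 fun h => h4 (congrArg Subtype.val h))

theorem adj_EE (u v : Kel k n) (h : (cov (Kel k n)).Adj u v) : EE k n u.1 v.1 ∨ EE k n v.1 u.1 := by
  unfold cov at h
  rw [SimpleGraph.fromRel_adj] at h
  exact h.2.imp (cov_EE _ _) (cov_EE _ _)

theorem height : HeightLE (Kel k n) (k * n + 2) := by
  intro s hs
  have h1 : s.card ≤ (Finset.range (k * n + 2)).card := by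
    apply Finset.card_le_card_of_injOn (fun u : Kel k n => rk k n u.1)
    · intro u _
      exact Finset.mem_coe.2 (Finset.mem_range.2 (rk_top u.1 u.2))
    · intro u hu v hv huv
      by_contra hne
      have hne' : u.1 ≠ v.1 := fun h => hne (Subtype.ext h)
      have huv' : rk k n u.1 = rk k n v.1 := huv
      rcases hs hu hv hne with h2 | h2
      · have := W.rk_lt u.1 v.1 h2 hne'
        omega
      · have := W.rk_lt v.1 u.1 h2 (Ne.symm hne')
        omega
  rwa [Finset.card_range] at h1

/-! ### finiteness -/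

/-- code -/
def code : W → Fin 4 × ℕ × ℕ
  | X a => (0, 0, a)
  | Y a => (1, 0, a)
  | R j B => (2, j, B)
  | L j B => (3, j, B)

theorem code_inj : Function.Injective code := by
  intro u v h
  cases u <;> cases v <;> simp_all [code]

theorem pow_le (i : ℕ) (hn : 0 < n) : n ^ (k - i) ≤ n ^ k := Nat.pow_le_pow_right hn (Nat.sub_le _ _)

instance instFin : Finite (Kel k n) := by
  have h1 : ∀ u : Kel k n, (code u.1).2.1 < k + 1 ∧ (code u.1).2.2 < n ^ k + 1 := by
    rintro ⟨u, hu⟩
    cases u with
    | X a =>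
      have h : a < n ^ k := hu
      simp only [code]; omega
    | Y a =>
      have h : a < n ^ k := hu
      simp only [code]; omega
    | R j B =>
      have hn := n_pos hu
      have h2 := pow_le (k := k) j hn
      obtain ⟨h4, h5⟩ := hu
      simp only [code]; omega
    | L j B =>
      have hn := n_pos hu
      have h2 := pow_le (k := k) j hn
      obtain ⟨h4, h5⟩ := hu
      simp only [code]; omega
  refine Finite.of_injective (β := Fin 4 × Fin (k + 1) × Fin (n ^ k + 1))
    (fun u : Kel k n => ((code u.1).1, ⟨_, (h1 u).1⟩, ⟨_, (h1 u).2⟩)) ?_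
  intro u v huv
  simp only [Prod.mk.injEq, Fin.mk.injEq] at huv
  obtain ⟨e1, e2, e3⟩ := huv
  exact Subtype.ext (code_inj (Prod.ext e1 (Prod.ext e2 e3)))

noncomputable instance instFT : Fintype (Kel k n) := Fintype.ofFinite _

/-! ### the order between the pairs -/

/-- the up-set of `X a` -/
def Up (n a : ℕ) : W → Prop
  | X b => b = a
  | Y b => b ≠ a
  | R j B => a / n ^ (j + 1) = B / n ∧ a / n ^ j ≤ B
  | L j B => a / n ^ (j + 1) = B / n ∧ B ≤ a / n ^ j

theorem div_pow_succ (a j : ℕ) : a / n ^ (j + 1) = a / n ^ j / n := by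
  rw [pow_succ, Nat.div_div_eq_div_mul]

theorem up_E (a : ℕ) (u v : W) (h : E n u v) (hu : Up n a u) : Up n a v := by
  cases h with
  | xr b =>
    have h1 : b = a := hu
    subst h1
    exact ⟨by simp, by simp⟩
  | xl b =>
    have h1 : b = a := hu
    subst h1
    exact ⟨by simp, by simp⟩
  | rr j B hB => exact ⟨hu.1.trans hB.symm, hu.2.trans (Nat.le_succ _)⟩
  | ll j B hB => exact ⟨hu.1.trans hB, (Nat.le_succ _).trans hu.2⟩
  | ru j B hB =>
    refine ⟨?_, hu.1.le⟩
    rw [div_pow_succ, hu.1]
  | lu j B hB =>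
    refine ⟨?_, hu.1.ge⟩
    rw [div_pow_succ, hu.1]
  | ry j B b hB hb =>
    intro h1
    have h2 : a / n ^ j ≤ B := hu.2
    rw [h1] at hb
    omega
  | ly j B b hB hb =>
    intro h1
    have h2 : B + 1 ≤ a / n ^ j := hu.2
    rw [h1] at hb
    omega

theorem up_le (a : ℕ) (u v : W) (h : Relation.ReflTransGen (EE k n) u v) (hu : Up n a u) :
    Up n a v := by
  induction h with
  | refl => exact hu
  | tail _ h ih => exact up_E a _ _ h.1 ih

theorem ok_block {a j B : ℕ} (ha : a < n ^ k) (hj : j < k) (hn : 0 < n)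
    (h : a / n ^ (j + 1) = B / n) : j < k ∧ B < n ^ (k - j) := by
  refine ⟨hj, ?_⟩
  have h1 : a / n ^ (j + 1) < n ^ (k - j - 1) := by
    rw [Nat.div_lt_iff_lt_mul (Nat.pow_pos hn), ← pow_add]
    rwa [show k - j - 1 + (j + 1) = k by omega]
  rw [h, Nat.div_lt_iff_lt_mul hn, ← pow_succ] at h1
  rwa [show k - j - 1 + 1 = k - j by omega] at h1

theorem railR (j : ℕ) {a : ℕ} (ha : a < n ^ k) (hj : j < k) (hn : 0 < n) :
    ∀ (t B : ℕ), a / n ^ (j + 1) = B / n → a / n ^ (j + 1) = (B + t) / n →
      Relation.ReflTransGen (EE k n) (R j B) (R j (B + t)) := by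
  intro t
  induction t with
  | zero => intro B _ _; exact Relation.ReflTransGen.refl
  | succ t ih =>
    intro B h1 h2
    have h3 : a / n ^ (j + 1) = (B + t) / n := by
      apply le_antisymm
      · rw [h1]; exact Nat.div_le_div_right (Nat.le_add_right _ _)
      · rw [h2]; exact Nat.div_le_div_right (by omega)
    refine Relation.ReflTransGen.tail (ih B h1 h3) ⟨?_, ok_block ha hj hn h3, ok_block ha hj hn h2⟩
    exact E.rr j (B + t) (h2.symm.trans h3)

theorem railL (j : ℕ) {a : ℕ} (ha : a < n ^ k) (hj : j < k) (hn : 0 < n) :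
    ∀ (t B : ℕ), a / n ^ (j + 1) = B / n → a / n ^ (j + 1) = (B + t) / n →
      Relation.ReflTransGen (EE k n) (L j (B + t)) (L j B) := by
  intro t
  induction t with
  | zero => intro B _ _; exact Relation.ReflTransGen.refl
  | succ t ih =>
    intro B h1 h2
    have h3 : a / n ^ (j + 1) = (B + t) / n := by
      apply le_antisymm
      · rw [h1]; exact Nat.div_le_div_right (Nat.le_add_right _ _)
      · rw [h2]; exact Nat.div_le_div_right (by omega)
    have h4 : EE k n (L j (B + t + 1)) (L j (B + t)) :=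
      ⟨E.ll j (B + t) (h2.symm.trans h3), ok_block ha hj hn h2, ok_block ha hj hn h3⟩
    exact Relation.ReflTransGen.head h4 (ih B h1 h3)

theorem climbR {a : ℕ} (ha : a < n ^ k) (hn : 0 < n) : ∀ j, j < k →
    Relation.ReflTransGen (EE k n) (X a) (R j (a / n ^ j)) := by
  intro j
  induction j with
  | zero =>
    intro hk
    rw [pow_zero, Nat.div_one]
    exact Relation.ReflTransGen.single ⟨E.xr a, ha, ok_block ha hk hn (by simp)⟩
  | succ j ih =>
    intro hj
    have hj' : j < k := by omega
    set q := a / n ^ (j + 1) with hq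
    set p := a / n ^ j with hp
    have hqp : q = p / n := div_pow_succ a j
    have h1 := Nat.div_add_mod p n
    have h2 := Nat.mod_lt p hn
    rw [← hqp] at h1
    have h3 : (p + (n - 1 - p % n)) = n * q + (n - 1) := by omega
    have h4 : (p + (n - 1 - p % n)) / n = q := by
      rw [h3, Nat.mul_add_div hn, Nat.div_eq_of_lt (by omega), Nat.add_zero]
    have h5 : (p + (n - 1 - p % n)) % n + 1 = n := by
      rw [h3, Nat.mul_add_mod, Nat.mod_eq_of_lt (by omega)]
      omega
    have h6 := (ih hj').trans (railR j ha hj' hn (n - 1 - p % n) p hqp h4.symm)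
    refine h6.tail ⟨?_, ok_block ha hj' hn h4.symm, ok_block ha hj hn (div_pow_succ a (j + 1))⟩
    have h7 := E.ru (n := n) j (p + (n - 1 - p % n)) h5
    rwa [h4] at h7

theorem climbL {a : ℕ} (ha : a < n ^ k) (hn : 0 < n) : ∀ j, j < k →
    Relation.ReflTransGen (EE k n) (X a) (L j (a / n ^ j)) := by
  intro j
  induction j with
  | zero =>
    intro hk
    rw [pow_zero, Nat.div_one]
    exact Relation.ReflTransGen.single ⟨E.xl a, ha, ok_block ha hk hn (by simp)⟩
  | succ j ih =>
    intro hj
    have hj' : j < k := by omega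
    set q := a / n ^ (j + 1) with hq
    set p := a / n ^ j with hp
    have hqp : q = p / n := div_pow_succ a j
    have h1 := Nat.div_add_mod p n
    rw [← hqp] at h1
    have h4 : q * n / n = q := Nat.mul_div_cancel q hn
    have h3 : q * n + p % n = p := by rw [Nat.mul_comm]; exact h1
    have h6 : Relation.ReflTransGen (EE k n) (L j p) (L j (q * n)) := by
      have h7 := railL (k := k) j ha hj' hn (p % n) (q * n) h4.symm (by rw [h3]; exact hqp)
      rwa [h3] at h7
    refine ((ih hj').trans h6).tail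
      ⟨?_, ok_block ha hj' hn h4.symm, ok_block ha hj hn (div_pow_succ a (j + 1))⟩
    have h7 := E.lu (n := n) j (q * n) (Nat.mul_mod_left q n)
    rwa [h4] at h7

theorem le_XY {a b : ℕ} (ha : a < n ^ k) (hb : b < n ^ k) (hab : a ≠ b) :
    Relation.ReflTransGen (EE k n) (X a) (Y b) := by
  have hn : 0 < n := by
    rcases Nat.eq_zero_or_pos n with h0 | h0
    · exfalso
      subst h0
      rcases Nat.eq_zero_or_pos k with h1 | h1
      · subst h1; simp at ha hb; omega
      · rw [Nat.zero_pow h1] at ha; omega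
    · exact h0
  classical
  have hex : ∃ m, a / n ^ m = b / n ^ m := ⟨k, by rw [Nat.div_eq_of_lt ha, Nat.div_eq_of_lt hb]⟩
  obtain ⟨m, hm, hmin⟩ : ∃ m, a / n ^ m = b / n ^ m ∧ ∀ i < m, ¬ a / n ^ i = b / n ^ i :=
    ⟨Nat.find hex, Nat.find_spec hex, fun i hi => Nat.find_min hex hi⟩
  have hm0 : m ≠ 0 := by
    rintro rfl
    simp at hm
    exact hab hm
  have hmk : m ≤ k := by
    by_contra h
    exact hmin k (by omega) (by rw [Nat.div_eq_of_lt ha, Nat.div_eq_of_lt hb])
  obtain ⟨j, rfl⟩ : ∃ j, m = j + 1 := ⟨m - 1, by omega⟩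
  have hj : j < k := by omega
  have hne := hmin j (by omega)
  have e1 := div_pow_succ (n := n) a j
  have e2 := div_pow_succ (n := n) b j
  rcases Nat.lt_or_gt_of_ne hne with h | h
  · obtain ⟨t, ht⟩ : ∃ t, b / n ^ j = a / n ^ j + t + 1 := ⟨b / n ^ j - a / n ^ j - 1, by omega⟩
    have h1 : a / n ^ (j + 1) = (a / n ^ j + t + 1) / n := by rw [hm, e2, ht]
    have h2 : a / n ^ (j + 1) = (a / n ^ j + t) / n := by
      apply le_antisymm
      · rw [e1]; exact Nat.div_le_div_right (Nat.le_add_right _ _)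
      · rw [h1]; exact Nat.div_le_div_right (by omega)
    refine ((climbR ha hn j hj).trans (railR j ha hj hn t _ e1 h2)).tail
      ⟨E.ry j _ b (h1.symm.trans h2) ht, ok_block ha hj hn h2, hb⟩
  · obtain ⟨t, ht⟩ : ∃ t, a / n ^ j = b / n ^ j + 1 + t := ⟨a / n ^ j - b / n ^ j - 1, by omega⟩
    have h1 : a / n ^ (j + 1) = (b / n ^ j) / n := by rw [hm, e2]
    have h2 : a / n ^ (j + 1) = (b / n ^ j + 1) / n := by
      apply le_antisymm
      · rw [h1]; exact Nat.div_le_div_right (Nat.le_add_right _ _)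
      · rw [e1]; exact Nat.div_le_div_right (by omega)
    have h3 : Relation.ReflTransGen (EE k n) (L j (a / n ^ j)) (L j (b / n ^ j + 1)) := by
      have h4 := railL (k := k) j ha hj hn t (b / n ^ j + 1) h2 (by rw [← ht]; exact e1)
      rwa [← ht] at h4
    refine ((climbL ha hn j hj).trans h3).tail
      ⟨E.ly j _ b (h2.symm.trans h1) rfl, ok_block ha hj hn h2, hb⟩

theorem not_le_XY (a : ℕ) : ¬ Relation.ReflTransGen (EE k n) (X a) (Y a) := by
  intro h
  exact up_le a _ _ h rfl rfl

theorem dim (d : ℕ) (h : DimLE (Kel k n) d) : n ^ k ≤ d := by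
  obtain ⟨f, hf⟩ := h
  let x : Fin (n ^ k) → Kel k n := fun a => ⟨X a, a.2⟩
  let y : Fin (n ^ k) → Kel k n := fun a => ⟨Y a, a.2⟩
  have h1 : ∀ a, ∃ i, f (y a) i < f (x a) i := by
    intro a
    by_contra h
    push Not at h
    exact not_le_XY (k := k) (n := n) a ((hf (x a) (y a)).2 h)
  choose g hg using h1
  have h2 : Function.Injective g := by
    intro a b hab
    by_contra hne
    have hne' : (a : ℕ) ≠ b := fun h => hne (Fin.ext h)
    have h3 : x a ≤ y b := le_XY a.2 b.2 hne'
    have h4 : x b ≤ y a := le_XY b.2 a.2 hne'.symm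
    have h5 : f (x a) (g a) ≤ f (y b) (g a) := (hf _ _).1 h3 (g a)
    have h6 : f (x b) (g a) ≤ f (y a) (g a) := (hf _ _).1 h4 (g a)
    have h7 := hg a
    have h8 := hg b
    rw [← hab] at h8
    omega
  have := Fintype.card_le_of_injective g h2
  simpa using this

end Kel

end Pool.Agent.Helper23.NK
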