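import Pool.Agent.Helper23.NK.Kelly

/-!
# Posets of large dimension with cover graph of small path-width: the path decomposition
-/

set_option autoImplicit false

namespace Pool.Agent.Helper23.NK

open Pool.Agent.Helper66.PD (cov HeightLE PathWidthLE DimLE)

namespace Kel

open W

variable {k n : ℕ}

/-- length of the interval of a rail element -/
def wd (k n j : ℕ) (c : Prop) [Decidable c] : ℕ := if c then 1 else (2 * k + 1) * n ^ j

/-- first bag of an element -/
def lo (k n : ℕ) : W → ℕ
  | X a => (2 * k + 1) * a + k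
  | Y a => (2 * k + 1) * a + k + 1
  | R j B => (2 * k + 1) * ((B + 1) * n ^ j - 1) + k + 2 + j
  | L j B => (2 * k + 1) * (B * n ^ j) + k - j - wd k n j (B % n = 0)

/-- last bag of an element -/
def hi (k n : ℕ) : W → ℕ
  | X a => (2 * k + 1) * a + k + 2
  | Y a => (2 * k + 1) * a + k + 1
  | R j B => (2 * k + 1) * ((B + 1) * n ^ j - 1) + k + 2 + j + wd k n j (B % n + 1 = n)
  | L j B => (2 * k + 1) * (B * n ^ j) + k - j

theorem pow_pos' {n j : ℕ} (hn : 0 < n) : 1 ≤ n ^ j := Nat.pow_pos hn

theorem wd_pos (j : ℕ) (c : Prop) [Decidable c] (hn : 0 < n) : 1 ≤ wd k n j c := by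
  unfold wd
  split_ifs
  · exact le_rfl
  · exact Nat.mul_pos (by omega) (Nat.pow_pos hn)

theorem wd_le (j : ℕ) (c : Prop) [Decidable c] (hn : 0 < n) :
    wd k n j c ≤ (2 * k + 1) * n ^ j := by
  unfold wd
  split_ifs
  · exact Nat.mul_pos (by omega) (Nat.pow_pos hn)
  · exact le_rfl

/-- the start of the interval of a rail to the right, without subtraction -/
theorem lo_R {j B : ℕ} (hn : 0 < n) :
    lo k n (R j B) + (2 * k + 1) = (2 * k + 1) * ((B + 1) * n ^ j) + k + 2 + j := by
  have h1 : 1 ≤ (B + 1) * n ^ j := Nat.mul_pos (by omega) (Nat.pow_pos hn)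
  obtain ⟨t, ht⟩ : ∃ t, (B + 1) * n ^ j = t + 1 := ⟨_, (Nat.sub_add_cancel h1).symm⟩
  simp only [lo]
  rw [ht, Nat.add_sub_cancel]
  ring

theorem hi_R {j B : ℕ} : hi k n (R j B) = lo k n (R j B) + wd k n j (B % n + 1 = n) := rfl

theorem hi_L {j B : ℕ} (hj : j < k) : hi k n (L j B) + j = (2 * k + 1) * (B * n ^ j) + k := by
  simp only [hi]
  omega

theorem lo_L {j B : ℕ} (hj : j < k) (hn : 0 < n) :
    lo k n (L j B) + wd k n j (B % n = 0) = hi k n (L j B) := by
  have h1 : wd k n j (B % n = 0) ≤ (2 * k + 1) * (B * n ^ j) + k - j := by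
    by_cases h : B % n = 0
    · unfold wd
      rw [if_pos h]
      omega
    · have h2 : 0 < B := by
        rcases Nat.eq_zero_or_pos B with h0 | h0
        · exact absurd (by rw [h0]; exact Nat.zero_mod n) h
        · exact h0
      have h3 := wd_le (k := k) (n := n) j (B % n = 0) hn
      have h4 : (2 * k + 1) * n ^ j ≤ (2 * k + 1) * (B * n ^ j) :=
        Nat.mul_le_mul_left _ (Nat.le_mul_of_pos_left _ h2)
      omega
  simp only [lo, hi]
  omega

theorem lo_le_hi (u : W) (h : ok k n u) : lo k n u ≤ hi k n u := by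
  cases u with
  | X a => simp only [lo, hi]; omega
  | Y a => simp only [lo, hi]; omega
  | R j B => rw [hi_R]; omega
  | L j B =>
    have := lo_L (k := k) (n := n) (B := B) h.1 (n_pos h)
    omega

theorem wd_R {j B : ℕ} (h : (B + 1) / n = B / n) (hn : 0 < n) :
    wd k n j (B % n + 1 = n) = (2 * k + 1) * n ^ j := by
  have h1 := mod_succ h
  have h2 := Nat.mod_lt (B + 1) hn
  unfold wd
  rw [if_neg (by omega)]

theorem wd_L {j B : ℕ} (h : (B + 1) / n = B / n) :
    wd k n j ((B + 1) % n = 0) = (2 * k + 1) * n ^ j := by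
  have h1 := mod_succ h
  unfold wd
  rw [if_neg (by omega)]

/-- the intervals of the ends of an edge meet -/
theorem meet (u v : W) (h : EE k n u v) : lo k n u ≤ hi k n v ∧ lo k n v ≤ hi k n u := by
  obtain ⟨hE, hu, hv⟩ := h
  cases hE with
  | xr a =>
    have hn := n_pos hv
    have h1 := lo_R (k := k) (n := n) (j := 0) (B := a) hn
    have h2 : (2 * k + 1) * ((a + 1) * n ^ 0) = (2 * k + 1) * a + (2 * k + 1) := by ring
    have h3 : hi k n (X a) = (2 * k + 1) * a + k + 2 := rfl
    have h4 : lo k n (X a) = (2 * k + 1) * a + k := rfl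
    rw [hi_R]
    omega
  | xl a =>
    have hn := n_pos hv
    have h1 := hi_L (k := k) (n := n) (j := 0) (B := a) hv.1
    have h5 := lo_L (k := k) (n := n) (j := 0) (B := a) hv.1 hn
    have h2 : (2 * k + 1) * (a * n ^ 0) = (2 * k + 1) * a := by ring
    have h3 : hi k n (X a) = (2 * k + 1) * a + k + 2 := rfl
    have h4 : lo k n (X a) = (2 * k + 1) * a + k := rfl
    omega
  | rr j B hB =>
    have hn := n_pos hu
    have h1 := lo_R (k := k) (n := n) (j := j) (B := B) hn
    have h2 := lo_R (k := k) (n := n) (j := j) (B := B + 1) hn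
    have h3 : (2 * k + 1) * ((B + 1 + 1) * n ^ j) =
      (2 * k + 1) * ((B + 1) * n ^ j) + (2 * k + 1) * n ^ j := by ring
    rw [hi_R, hi_R, wd_R hB hn]
    omega
  | ll j B hB =>
    have hn := n_pos hu
    have h1 := hi_L (k := k) (n := n) (j := j) (B := B) hu.1
    have h2 := hi_L (k := k) (n := n) (j := j) (B := B + 1) hu.1
    have h5 := lo_L (k := k) (n := n) (j := j) (B := B) hu.1 hn
    have h6 := lo_L (k := k) (n := n) (j := j) (B := B + 1) hu.1 hn
    rw [wd_L hB] at h6
    have h3 : (2 * k + 1) * ((B + 1) * n ^ j) =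
      (2 * k + 1) * (B * n ^ j) + (2 * k + 1) * n ^ j := by ring
    omega
  | ru j B hB =>
    have hn := n_pos hu
    have h1 := lo_R (k := k) (n := n) (j := j) (B := B) hn
    have h2 := lo_R (k := k) (n := n) (j := j + 1) (B := B / n) hn
    have h5 : n * (B / n) + n = B + 1 := by
      have := Nat.div_add_mod B n
      omega
    have h3 : (2 * k + 1) * ((B / n + 1) * n ^ (j + 1)) =
        (2 * k + 1) * ((B + 1) * n ^ j) := by
      rw [← h5]; ring
    have h4 : wd k n j (B % n + 1 = n) = 1 := by unfold wd; rw [if_pos hB]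
    rw [hi_R, hi_R, h4]
    omega
  | lu j B hB =>
    have hn := n_pos hu
    have h1 := hi_L (k := k) (n := n) (j := j) (B := B) hu.1
    have h2 := hi_L (k := k) (n := n) (j := j + 1) (B := B / n) hv.1
    have h5 := lo_L (k := k) (n := n) (j := j) (B := B) hu.1 hn
    have h6 := lo_L (k := k) (n := n) (j := j + 1) (B := B / n) hv.1 hn
    have h4 : wd k n j (B % n = 0) = 1 := by unfold wd; rw [if_pos hB]
    have h7 : n * (B / n) = B := by
      have := Nat.div_add_mod B n
      omega
    have h3 : (2 * k + 1) * (B / n * n ^ (j + 1)) = (2 * k + 1) * (B * n ^ j) := by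
      conv_rhs => rw [← h7]
      ring
    rw [h4] at h5
    omega
  | ry j B b hB hb =>
    have hn := n_pos hu
    have hp : 0 < n ^ j := Nat.pow_pos hn
    have h1 := lo_R (k := k) (n := n) (j := j) (B := B) hn
    have h3 : lo k n (Y b) = (2 * k + 1) * b + k + 1 := rfl
    have h4 : hi k n (Y b) = (2 * k + 1) * b + k + 1 := rfl
    have h5 : (B + 1) * n ^ j ≤ b := by rw [← hb]; exact Nat.div_mul_le_self b (n ^ j)
    have h6 : b + 1 ≤ (B + 2) * n ^ j := by
      have := Nat.lt_mul_of_div_lt (show b / n ^ j < B + 2 by omega) hp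
      exact this
    have h7 : (2 * k + 1) * ((B + 1) * n ^ j) ≤ (2 * k + 1) * b := Nat.mul_le_mul_left _ h5
    have h8 : (2 * k + 1) * (b + 1) ≤ (2 * k + 1) * ((B + 2) * n ^ j) := Nat.mul_le_mul_left _ h6
    have h9 : (2 * k + 1) * (b + 1) = (2 * k + 1) * b + (2 * k + 1) := by ring
    have h10 : (2 * k + 1) * ((B + 2) * n ^ j) =
      (2 * k + 1) * ((B + 1) * n ^ j) + (2 * k + 1) * n ^ j := by ring
    have hj := hu.1
    rw [hi_R, wd_R hB hn]
    omega
  | ly j B b hB hb =>
    have hn := n_pos hu
    have hp : 0 < n ^ j := Nat.pow_pos hn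
    have h1 := hi_L (k := k) (n := n) (j := j) (B := B + 1) hu.1
    have h2 := lo_L (k := k) (n := n) (j := j) (B := B + 1) hu.1 hn
    rw [wd_L hB] at h2
    have h3 : lo k n (Y b) = (2 * k + 1) * b + k + 1 := rfl
    have h4 : hi k n (Y b) = (2 * k + 1) * b + k + 1 := rfl
    have h5 : B * n ^ j ≤ b := by rw [← hb]; exact Nat.div_mul_le_self b (n ^ j)
    have h6 : b + 1 ≤ (B + 1) * n ^ j := by
      have := Nat.lt_mul_of_div_lt (show b / n ^ j < B + 1 by omega) hp
      exact this
    have h7 : (2 * k + 1) * (B * n ^ j) ≤ (2 * k + 1) * b := Nat.mul_le_mul_left _ h5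
    have h8 : (2 * k + 1) * (b + 1) ≤ (2 * k + 1) * ((B + 1) * n ^ j) := Nat.mul_le_mul_left _ h6
    have h9 : (2 * k + 1) * (b + 1) = (2 * k + 1) * b + (2 * k + 1) := by ring
    have h10 : (2 * k + 1) * ((B + 1) * n ^ j) =
      (2 * k + 1) * (B * n ^ j) + (2 * k + 1) * n ^ j := by ring
    have hj := hu.1
    omega

/-! ### the number of elements in a bag -/

/-- the slot of an element at the time `t` -/
def slot (k n t : ℕ) : W → ℕ
  | X _ => 2 * k
  | Y _ => 2 * k + 1
  | R j B => if t = lo k n (R j B) then 2 * k + 1 else j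
  | L j B => if t = hi k n (L j B) then 2 * k + 1 else k + j

/-- uniqueness of quotient and phase -/
theorem phase {D q q' p p' : ℕ} (hp : 1 ≤ p) (hp' : 1 ≤ p') (hD : p ≤ D) (hD' : p' ≤ D)
    (h : D * q + p = D * q' + p') : q = q' ∧ p = p' := by
  rcases lt_trichotomy q q' with h1 | h1 | h1
  · have h2 : D * (q + 1) ≤ D * q' := Nat.mul_le_mul_left _ h1
    have h3 : D * (q + 1) = D * q + D := by ring
    omega
  · subst h1
    exact ⟨rfl, by omega⟩
  · have h2 : D * (q' + 1) ≤ D * q := Nat.mul_le_mul_left _ h1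
    have h3 : D * (q' + 1) = D * q' + D := by ring
    omega

/-- data of the last slot: quotient and phase of the time -/
def zq (k n : ℕ) : W → ℕ × ℕ
  | X a => (a, 0)
  | Y a => (a + 1, k + 1)
  | R j B => ((B + 1) * n ^ j, k + 2 + j)
  | L j B => (B * n ^ j + 1, k - j)

theorem slot_lt (t : ℕ) (u : W) (h : ok k n u) : slot k n t u < 2 * k + 2 := by
  cases u with
  | X a => simp only [slot]; omega
  | Y a => simp only [slot]; omega
  | R j B =>
    have := h.1
    simp only [slot]
    split_ifs <;> omega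
  | L j B =>
    have := h.1
    simp only [slot]
    split_ifs <;> omega

/-- representation of the time by the elements of the last slot -/
theorem zq_rep (t : ℕ) (u : W) (h : ok k n u) (h1 : lo k n u ≤ t) (h2 : t ≤ hi k n u)
    (h3 : slot k n t u = 2 * k + 1) :
    t + (2 * k + 1) = (2 * k + 1) * (zq k n u).1 + (zq k n u).2 ∧ 1 ≤ (zq k n u).2 ∧
      (zq k n u).2 ≤ 2 * k + 1 := by
  cases u with
  | X a => simp only [slot] at h3; omega
  | Y a =>
    have h4 : (2 * k + 1) * (a + 1) = (2 * k + 1) * a + (2 * k + 1) := by ring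
    simp only [lo, hi] at h1 h2
    simp only [zq]
    omega
  | R j B =>
    have hn := n_pos h
    have h4 := lo_R (k := k) (n := n) (j := j) (B := B) hn
    have hj := h.1
    have h5 : t = lo k n (R j B) := by
      by_contra h6
      simp only [slot, if_neg h6] at h3
      omega
    simp only [zq]
    omega
  | L j B =>
    have h4 := hi_L (k := k) (n := n) (j := j) (B := B) h.1
    have hj := h.1
    have h5 : t = hi k n (L j B) := by
      by_contra h6
      simp only [slot, if_neg h6] at h3
      omega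
    have h6 : (2 * k + 1) * (B * n ^ j + 1) = (2 * k + 1) * (B * n ^ j) + (2 * k + 1) := by ring
    simp only [zq]
    omega

theorem zq_inj (u v : W) (hu : ok k n u) (hv : ok k n v) (hu' : (zq k n u).2 ≠ 0)
    (h : (zq k n u).1 = (zq k n v).1) (h' : (zq k n u).2 = (zq k n v).2) : u = v := by
  cases u with
  | X a => exact absurd rfl hu'
  | Y a =>
    cases v with
    | X b => simp only [zq] at h'; omega
    | Y b =>
      simp only [zq] at h
      rw [show a = b by omega]
    | R j B => simp only [zq] at h'; omega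
    | L j B =>
      simp only [zq] at h'
      omega
  | R j B =>
    cases v with
    | X b => simp only [zq] at h'; omega
    | Y b => simp only [zq] at h'; omega
    | R i C =>
      simp only [zq] at h h'
      have hn := n_pos hu
      obtain rfl : j = i := by omega
      have h1 : B + 1 = C + 1 := Nat.eq_of_mul_eq_mul_right (Nat.pow_pos hn) h
      rw [show B = C by omega]
    | L i C =>
      simp only [zq] at h'
      omega
  | L j B =>
    cases v with
    | X b =>
      have := hu.1
      simp only [zq] at h'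
      omega
    | Y b => simp only [zq] at h'; omega
    | R i C => simp only [zq] at h'; omega
    | L i C =>
      have h1 := hu.1
      have h2 := hv.1
      simp only [zq] at h h'
      have hn := n_pos hu
      obtain rfl : j = i := by omega
      have h3 : B * n ^ j = C * n ^ j := by omega
      rw [Nat.eq_of_mul_eq_mul_right (Nat.pow_pos hn) h3]

/-- blocks of a rail to the right which are alive after their start -/
theorem R_inj {t j B C : ℕ} (h : j < k ∧ B < n ^ (k - j)) (h1 : lo k n (R j C) < t)
    (h2 : t ≤ hi k n (R j B)) : C ≤ B := by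
  by_contra hlt
  have hn := n_pos h
  have e1 := lo_R (k := k) (n := n) (j := j) (B := B) hn
  have e2 := lo_R (k := k) (n := n) (j := j) (B := C) hn
  have e3 := wd_le (k := k) (n := n) j (B % n + 1 = n) hn
  have e4 : (B + 2) * n ^ j ≤ (C + 1) * n ^ j := Nat.mul_le_mul_right _ (by omega)
  have e5 : (2 * k + 1) * ((B + 2) * n ^ j) ≤ (2 * k + 1) * ((C + 1) * n ^ j) :=
    Nat.mul_le_mul_left _ e4
  have e6 : (2 * k + 1) * ((B + 2) * n ^ j) =
    (2 * k + 1) * ((B + 1) * n ^ j) + (2 * k + 1) * n ^ j := by ring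
  rw [hi_R] at h2
  omega

/-- blocks of a rail to the left which are alive before their end -/
theorem L_inj {t j B C : ℕ} (h : j < k ∧ C < n ^ (k - j)) (h1 : lo k n (L j C) ≤ t)
    (h2 : t < hi k n (L j B)) : C ≤ B := by
  by_contra hlt
  have hn := n_pos h
  have e1 := hi_L (k := k) (n := n) (j := j) (B := B) h.1
  have e2 := hi_L (k := k) (n := n) (j := j) (B := C) h.1
  have e7 := lo_L (k := k) (n := n) (j := j) (B := C) h.1 hn
  have e3 := wd_le (k := k) (n := n) j (C % n = 0) hn
  have e4 : (B + 1) * n ^ j ≤ C * n ^ j := Nat.mul_le_mul_right _ (by omega)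
  have e5 : (2 * k + 1) * ((B + 1) * n ^ j) ≤ (2 * k + 1) * (C * n ^ j) :=
    Nat.mul_le_mul_left _ e4
  have e6 : (2 * k + 1) * ((B + 1) * n ^ j) =
    (2 * k + 1) * (B * n ^ j) + (2 * k + 1) * n ^ j := by ring
  omega

theorem X_inj {t a b : ℕ} (h : b < n ^ k) (h1 : lo k n (X b) ≤ t) (h2 : t ≤ hi k n (X a)) :
    b ≤ a := by
  by_contra hlt
  simp only [lo, hi] at h1 h2
  have e1 : (2 * k + 1) * (a + 1) ≤ (2 * k + 1) * b := Nat.mul_le_mul_left _ (by omega)
  have e2 : (2 * k + 1) * (a + 1) = (2 * k + 1) * a + (2 * k + 1) := by ring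
  have hk : k = 0 := by omega
  subst hk
  simp at h
  omega

/-- different elements of a bag have different slots -/
theorem slot_inj (t : ℕ) (u v : W) (hu : ok k n u) (hv : ok k n v)
    (h1 : lo k n u ≤ t) (h2 : t ≤ hi k n u) (h3 : lo k n v ≤ t) (h4 : t ≤ hi k n v)
    (h : slot k n t u = slot k n t v) : u = v := by
  by_cases h5 : slot k n t u = 2 * k + 1
  · obtain ⟨a1, a2, a3⟩ := zq_rep t u hu h1 h2 h5
    obtain ⟨b1, b2, b3⟩ := zq_rep t v hv h3 h4 (h ▸ h5)
    obtain ⟨c1, c2⟩ := phase a2 b2 a3 b3 (a1.symm.trans b1)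
    exact zq_inj u v hu hv (by omega) c1 c2
  · have h6 : slot k n t v ≠ 2 * k + 1 := h ▸ h5
    cases u with
    | X a =>
      cases v with
      | X b => rw [le_antisymm (X_inj hu h1 h4) (X_inj hv h3 h2)]
      | Y b => exact absurd rfl h6
      | R j B =>
        have := hv.1
        simp only [slot] at h h6
        split_ifs at h h6 <;> omega
      | L j B =>
        have := hv.1
        simp only [slot] at h h6
        split_ifs at h h6 <;> omega
    | Y a => exact absurd rfl h5
    | R i C =>
      have hi' := hu.1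
      cases v with
      | X b =>
        simp only [slot] at h h5
        split_ifs at h h5 <;> omega
      | Y b => exact absurd rfl h6
      | R j B =>
        simp only [slot] at h h5 h6
        split_ifs at h h5 h6 with g1 g2 <;> try omega
        subst h
        rw [le_antisymm (R_inj hv (by omega) h4) (R_inj hu (by omega) h2)]
      | L j B =>
        simp only [slot] at h h5 h6
        split_ifs at h h5 h6 <;> omega
    | L i C =>
      have hi' := hu.1
      cases v with
      | X b =>
        simp only [slot] at h h5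
        split_ifs at h h5 <;> omega
      | Y b => exact absurd rfl h6
      | R j B =>
        have := hv.1
        simp only [slot] at h h5 h6
        split_ifs at h h5 h6 <;> omega
      | L j B =>
        simp only [slot] at h h5 h6
        split_ifs at h h5 h6 with g1 g2 <;> try omega
        obtain rfl : i = j := by omega
        rw [le_antisymm (L_inj hu h1 (by omega)) (L_inj hv h3 (by omega))]

theorem path_width : PathWidthLE (cov (Kel k n)) (2 * k + 1) := by
  classical
  refine ⟨(Finset.univ.sup fun u : Kel k n => hi k n u.1) + 1,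
    fun t => Finset.univ.filter (fun u : Kel k n => lo k n u.1 ≤ t ∧ (t : ℕ) ≤ hi k n u.1),
    ?_, ?_, ?_, ?_⟩
  · intro v
    have h1 : lo k n v.1 ≤ Finset.univ.sup fun u : Kel k n => hi k n u.1 :=
      (lo_le_hi v.1 v.2).trans
        (Finset.le_sup (f := fun u : Kel k n => hi k n u.1) (Finset.mem_univ v))
    refine ⟨⟨lo k n v.1, Nat.lt_succ_of_le h1⟩, ?_⟩
    rw [Finset.mem_filter]
    exact ⟨Finset.mem_univ _, le_rfl, lo_le_hi v.1 v.2⟩
  · intro u v huv
    have hm : lo k n u.1 ≤ hi k n v.1 ∧ lo k n v.1 ≤ hi k n u.1 := by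
      rcases adj_EE u v huv with h | h
      · exact meet _ _ h
      · exact (meet _ _ h).symm
    have hu := lo_le_hi u.1 u.2
    have hv := lo_le_hi v.1 v.2
    have h1 : max (lo k n u.1) (lo k n v.1) ≤ Finset.univ.sup fun u : Kel k n => hi k n u.1 :=
      (max_le hu hm.2).trans
        (Finset.le_sup (f := fun u : Kel k n => hi k n u.1) (Finset.mem_univ u))
    refine ⟨⟨max (lo k n u.1) (lo k n v.1), Nat.lt_succ_of_le h1⟩, ?_, ?_⟩
    · rw [Finset.mem_filter]
      exact ⟨Finset.mem_univ _, le_max_left _ _, max_le hu hm.2⟩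
    · rw [Finset.mem_filter]
      exact ⟨Finset.mem_univ _, le_max_right _ _, max_le hm.1 hv⟩
  · intro i j l v hij hjl hi' hl
    rw [Finset.mem_filter] at hi' hl ⊢
    have a1 : (i : ℕ) ≤ j := hij
    have a2 : (j : ℕ) ≤ l := hjl
    exact ⟨Finset.mem_univ _, hi'.2.1.trans a1, a2.trans hl.2.2⟩
  · intro t
    have h1 : (Finset.univ.filter
        (fun u : Kel k n => lo k n u.1 ≤ t ∧ (t : ℕ) ≤ hi k n u.1)).card ≤
        (Finset.range (2 * k + 2)).card := by
      apply Finset.card_le_card_of_injOn (fun u : Kel k n => slot k n t u.1)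
      · intro u _
        exact Finset.mem_coe.2 (Finset.mem_range.2 (slot_lt t u.1 u.2))
      · intro u hu v hv huv
        have hu' := (Finset.mem_filter.1 (Finset.mem_coe.1 hu)).2
        have hv' := (Finset.mem_filter.1 (Finset.mem_coe.1 hv)).2
        exact Subtype.ext (slot_inj t u.1 v.1 u.2 v.2 hu'.1 hu'.2 hv'.1 hv'.2 huv)
    rwa [Finset.card_range] at h1

end Kel

/-- For all `k` and `n` there is a finite poset in which all chains have at most `k * n + 2`
elements, whose cover graph has path-width at most `2 * k + 1` and whose dimension is at least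
`n ^ k`. -/
theorem path_width_lower : ∀ k n : ℕ, ∃ (P : Type) (_ : PartialOrder P) (_ : Fintype P),
    HeightLE P (k * n + 2) ∧ PathWidthLE (cov P) (2 * k + 1) ∧ ∀ d : ℕ, DimLE P d → n ^ k ≤ d :=
  fun k n => ⟨Kel k n, inferInstance, inferInstance, Kel.height, Kel.path_width, Kel.dim⟩

end Pool.Agent.Helper23.NK
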